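import Mathlib

open Filter Topology
open scoped ZeroAtInfty

namespace Pool.Agent.Results.MP_739307_an.AiDependence

/-- The net `e`, indexed by the directed set `J`, is an approximate identity of `A`. -/
def IsApproxId {A J : Type*} [NonUnitalNormedRing A] [Preorder J] (e : J → A) : Prop :=
  ∀ x : A, Tendsto (fun j => ‖e j * x - x‖) atTop (𝓝 0) ∧
    Tendsto (fun j => ‖x * e j - x‖) atTop (𝓝 0)

/-- The condition `C(a, l, E)` for the net `E = (e j)`. -/
def CondC {A J : Type*} [NonUnitalNormedRing A] [NormedSpace ℂ A] [Preorder J]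
    (a : A) (l : ℂ) (e : J → A) : Prop :=
  ∃ r : J → A, IsApproxId fun j => (l • e j - a) * r j

/-- indicator of the first `n + 1` natural numbers, as an element of `c₀` -/
noncomputable def f (n : ℕ) : C₀(ℕ, ℂ) where
  toFun k := if k ≤ n then 1 else 0
  continuous_toFun := continuous_of_discreteTopology
  zero_at_infty' := by
    rw [Filter.cocompact_eq_cofinite, Nat.cofinite_eq_atTop]
    refine tendsto_const_nhds.congr' ?_
    filter_upwards [eventually_gt_atTop n] with k hk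
    rw [if_neg (by omega)]

lemma f_apply (n k : ℕ) : f n k = if k ≤ n then 1 else 0 := rfl

lemma f_mul_f (n : ℕ) : f n * f n = f n := by
  ext k
  rw [ZeroAtInftyContinuousMap.mul_apply, f_apply]
  split_ifs <;> simp

lemma f_mul_f0 (n : ℕ) : f n * f 0 = f 0 := by
  ext k
  rw [ZeroAtInftyContinuousMap.mul_apply, f_apply, f_apply]
  by_cases h : k ≤ 0
  · have : k ≤ n := by omega
    simp [h, this]
  · simp [h]

lemma norm_le_iff {x : C₀(ℕ, ℂ)} {C : ℝ} (hC : 0 ≤ C) (h : ∀ k, ‖x k‖ ≤ C) : ‖x‖ ≤ C := by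
  rw [← ZeroAtInftyContinuousMap.norm_toBCF_eq_norm, BoundedContinuousFunction.norm_le hC]
  exact h

lemma apply_le_norm (x : C₀(ℕ, ℂ)) (k : ℕ) : ‖x k‖ ≤ ‖x‖ := by
  rw [← ZeroAtInftyContinuousMap.norm_toBCF_eq_norm]
  exact BoundedContinuousFunction.norm_coe_le_norm x.toBCF k

lemma f_tendsto (x : C₀(ℕ, ℂ)) : Tendsto (fun n => ‖f n * x - x‖) atTop (𝓝 0) := by
  rw [Metric.tendsto_atTop]
  intro ε hε
  have h1 : Tendsto (fun k => ‖x k‖) atTop (𝓝 0) := by
    have := x.zero_at_infty'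
    rw [Filter.cocompact_eq_cofinite, Nat.cofinite_eq_atTop] at this
    simpa using this.norm
  obtain ⟨n, hn⟩ := Filter.eventually_atTop.mp (h1.eventually (gt_mem_nhds (half_pos hε)))
  refine ⟨n, fun m hm => ?_⟩
  rw [Real.dist_eq, sub_zero, abs_of_nonneg (norm_nonneg _)]
  refine lt_of_le_of_lt (norm_le_iff (half_pos hε).le fun k => ?_) (half_lt_self hε)
  rw [ZeroAtInftyContinuousMap.sub_apply, ZeroAtInftyContinuousMap.mul_apply, f_apply]
  by_cases hk : k ≤ m
  · rw [if_pos hk, one_mul, sub_self, norm_zero]; exact (half_pos hε).le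
  · rw [if_neg hk, zero_mul, zero_sub, norm_neg]
    exact (hn k (by omega)).le

lemma f_approx : IsApproxId f := fun x => ⟨f_tendsto x, by
  simpa only [mul_comm x] using f_tendsto x⟩

/-- the scalars -/
noncomputable def c (n : ℕ) : ℂ := ((1 - 1 / ((n : ℝ) + 2) : ℝ) : ℂ)

lemma c_tendsto : Tendsto c atTop (𝓝 1) := by
  have h1 : Tendsto (fun n : ℕ => 1 - 1 / ((n : ℝ) + 2)) atTop (𝓝 (1 - 0)) := by
    refine tendsto_const_nhds.sub ?_
    have := (tendsto_one_div_add_atTop_nhds_zero_nat (𝕜 := ℝ)).comp (tendsto_add_atTop_nat 1)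
    refine this.congr fun n => ?_
    simp only [Function.comp_apply]
    push_cast
    ring_nf
  rw [sub_zero] at h1
  have := (Complex.continuous_ofReal.tendsto 1).comp h1
  rw [Complex.ofReal_one] at this
  exact this

lemma c_pos (n : ℕ) : 0 < 1 - 1 / ((n : ℝ) + 2) ∧ 1 - 1 / ((n : ℝ) + 2) < 1 := by
  have h : (0 : ℝ) ≤ n := Nat.cast_nonneg n
  have h1 : 1 / ((n : ℝ) + 2) < 1 := by rw [div_lt_one (by positivity)]; linarith
  have h2 : 0 < 1 / ((n : ℝ) + 2) := by positivity
  constructor <;> linarith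

/-- In the commutative C*-algebra `c₀` there are an element `a` and two contractive approximate
identities `e`, `f`, both indexed by the natural numbers and with `e n` a scalar multiple of `f n`,
such that `C(a, 1, e)` holds and `C(a, 1, f)` fails. -/
theorem result : ∃ (a : C₀(ℕ, ℂ)) (e f : ℕ → C₀(ℕ, ℂ)),
    IsApproxId e ∧ IsApproxId f ∧ (∀ n, ‖e n‖ ≤ 1) ∧ (∀ n, ‖f n‖ ≤ 1) ∧
    CondC a 1 e ∧ ¬ CondC a 1 f := by
  have hfn : ∀ n, ‖f n‖ ≤ 1 := fun n => norm_le_iff zero_le_one fun k => by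
    rw [f_apply]; split_ifs <;> simp
  have hcn : ∀ n, ‖c n‖ ≤ 1 := fun n => by
    rw [c, Complex.norm_real, Real.norm_of_nonneg (c_pos n).1.le]
    exact (c_pos n).2.le
  have hc0 : ∀ n, c n ≠ 0 := fun n => by
    unfold c; exact_mod_cast (c_pos n).1.ne'
  have hc1 : ∀ n, c n - 1 ≠ 0 := fun n h => by
    have h1 : c n = 1 := sub_eq_zero.mp h
    unfold c at h1
    have h2 : 1 - 1 / ((n : ℝ) + 2) = 1 := by exact_mod_cast h1
    exact (c_pos n).2.ne h2
  have hsmul : ∀ x : C₀(ℕ, ℂ), Tendsto (fun n => ‖(c n • f n) * x - x‖) atTop (𝓝 0) := fun x => by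
    have h1 : Tendsto (fun n => f n * x) atTop (𝓝 x) := by
      rw [tendsto_iff_norm_sub_tendsto_zero]; exact f_tendsto x
    have h2 : Tendsto (fun n => c n • (f n * x)) atTop (𝓝 ((1 : ℂ) • x)) := c_tendsto.smul h1
    rw [one_smul, tendsto_iff_norm_sub_tendsto_zero] at h2
    simpa only [smul_mul_assoc] using h2
  refine ⟨f 0, fun n => c n • f n, f, fun x => ⟨hsmul x, by
    simpa only [mul_comm x] using hsmul x⟩, f_approx, fun n => ?_, hfn, ?_, ?_⟩
  · rw [norm_smul]
    have h1 := hcn n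
    have h2 := hfn n
    have h3 := norm_nonneg (c n)
    have h4 := norm_nonneg (f n)
    nlinarith
  · refine ⟨fun n => (c n)⁻¹ • f n + ((c n)⁻¹ / (c n - 1)) • f 0, ?_⟩
    have h : (fun n => ((1 : ℂ) • (c n • f n) - f 0) *
        ((c n)⁻¹ • f n + ((c n)⁻¹ / (c n - 1)) • f 0)) = f := by
      funext n
      have h0 : f 0 * f n = f 0 := by rw [mul_comm, f_mul_f0]
      have hd : c n * ((c n)⁻¹ / (c n - 1)) = (c n)⁻¹ + (c n)⁻¹ / (c n - 1) := by
        have e1 := hc0 n
        have e2 := hc1 n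
        field_simp
        ring
      rw [one_smul, sub_mul, mul_add, mul_add, smul_mul_smul_comm, smul_mul_smul_comm,
        mul_smul_comm, mul_smul_comm, f_mul_f, f_mul_f0, h0, f_mul_f, mul_inv_cancel₀ (hc0 n),
        one_smul, hd]
      ext k
      simp only [ZeroAtInftyContinuousMap.sub_apply, ZeroAtInftyContinuousMap.add_apply,
        ZeroAtInftyContinuousMap.smul_apply, smul_eq_mul]
      ring
    rw [h]
    exact f_approx
  · rintro ⟨r, hr⟩
    have h1 := (hr (f 0)).1
    have h2 : ∀ n, 1 ≤ ‖((1 : ℂ) • f n - f 0) * r n * f 0 - f 0‖ := fun n => by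
      refine le_trans ?_ (apply_le_norm _ 0)
      simp [f_apply]
    have h3 := ge_of_tendsto' h1 h2
    norm_num at h3

end Pool.Agent.Results.MP_739307_an.AiDependence
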